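import Pool.Agent.Helper99.WP.GoalsW

/-! Packet WP FAC. -/

set_option autoImplicit false

open Finset

namespace Pool.Agent.Helper79.WP

open Pool.Agent.Helper99.WP Pool.Agent.Helper99.ERW

lemma sum_prod_fn {ι α : Type*} [Fintype ι] [DecidableEq ι] [Fintype α] (F : ι → α → ℝ) :
    ∑ a : ι → α, ∏ i, F i (a i) = ∏ i, ∑ o, F i o := by
  rw [Finset.prod_univ_sum, Fintype.piFinset_univ]

/-- One stack. -/
lemma sum_row {V : Type} [Fintype V] [DecidableEq V] (W : V → ℕ → Option V → ℝ) (N : ℕ)
    (n : V → ℕ) (hW : IsW W) (y : V) (o : Option V) :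
    ∑ s : Fin N → Option V, (∏ k : Fin N, W y k (s k)) *
      (if (if h : n y < N then s ⟨n y, h⟩ else none) = o then 1 else 0) = rowW W N n y o := by
  by_cases h : n y < N
  · have e : ∀ s : Fin N → Option V, (∏ k : Fin N, W y k (s k)) *
        (if (if h : n y < N then s ⟨n y, h⟩ else none) = o then (1 : ℝ) else 0) =
        ∏ k : Fin N, (W y k (s k) * if k = ⟨n y, h⟩ then (if s k = o then (1 : ℝ) else 0) else 1) := by
      intro s
      rw [Finset.prod_mul_distrib, Finset.prod_ite_eq' univ (⟨n y, h⟩ : Fin N)]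
      simp only [mem_univ, if_true, dif_pos h]
    rw [Finset.sum_congr rfl fun s _ => e s,
      sum_prod_fn fun (k : Fin N) (c : Option V) =>
        W y k c * if k = ⟨n y, h⟩ then (if c = o then (1 : ℝ) else 0) else 1]
    rw [Finset.prod_eq_single (⟨n y, h⟩ : Fin N)]
    · simp only [if_true, mul_ite, mul_one, mul_zero, Finset.sum_ite_eq', mem_univ]
      unfold rowW
      rw [if_pos h]
    · intro k _ hk
      simp only [if_neg hk, mul_one]
      exact (hW y k).2
    · intro h1
      exact absurd (mem_univ _) h1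
  · simp only [dif_neg h]
    unfold rowW
    rw [if_neg h, ← Finset.sum_mul, sum_prod_fn fun (k : Fin N) (c : Option V) => W y k c,
      Finset.prod_eq_one fun (k : Fin N) _ => (hW y k).2, one_mul]
    by_cases h2 : o = none
    · rw [if_pos h2, if_pos h2.symm]
    · rw [if_neg h2, if_neg fun h3 => h2 h3.symm]

lemma top_ext {V : Type} (N : ℕ) (n : V → ℕ) (a : V → Fin N → Option V) (y : V) :
    top (ext a) n y = if h : n y < N then a y ⟨n y, h⟩ else none := rfl

/-- The law of the top configuration. -/
lemma sum_top {V : Type} [Fintype V] [DecidableEq V] (W : V → ℕ → Option V → ℝ) (N : ℕ)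
    (n : V → ℕ) (hW : IsW W) (g : (V → Option V) → ℝ) :
    ∑ a : V → Fin N → Option V, prb W N a * g (top (ext a) n) =
      ∑ c : V → Option V, (∏ y, rowW W N n y (c y)) * g c := by
  have e1 : ∀ a : V → Fin N → Option V, prb W N a * g (top (ext a) n) =
      ∑ c : V → Option V, (prb W N a * if top (ext a) n = c then 1 else 0) * g c := by
    intro a
    simp only [mul_ite, mul_one, mul_zero, ite_mul, zero_mul, Finset.sum_ite_eq, mem_univ,
      if_true]
  rw [Finset.sum_congr rfl fun a _ => e1 a, Finset.sum_comm]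
  refine Finset.sum_congr rfl fun c _ => ?_
  rw [← Finset.sum_mul]
  congr 1
  have e2 : ∀ a : V → Fin N → Option V, (prb W N a * if top (ext a) n = c then (1 : ℝ) else 0) =
      ∏ y, ((∏ k : Fin N, W y k (a y k)) *
        (if (if h : n y < N then a y ⟨n y, h⟩ else none) = c y then (1 : ℝ) else 0)) := by
    intro a
    rw [Finset.prod_mul_distrib]
    congr 1
    by_cases h : top (ext a) n = c
    · rw [if_pos h, Finset.prod_eq_one]
      intro y _
      rw [← top_ext, h, if_pos rfl]
    · rw [if_neg h]
      have h1 : ∃ y, top (ext a) n y ≠ c y := by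
        by_contra h2
        push Not at h2
        exact h (funext h2)
      obtain ⟨y, hy⟩ := h1
      refine (Finset.prod_eq_zero (mem_univ y) ?_).symm
      rw [← top_ext, if_neg hy]
  rw [Finset.sum_congr rfl fun a _ => e2 a,
    sum_prod_fn fun (y : V) (s : Fin N → Option V) => (∏ k : Fin N, W y k (s k)) *
        (if (if h : n y < N then s ⟨n y, h⟩ else none) = c y then (1 : ℝ) else 0)]
  exact Finset.prod_congr rfl fun y _ => sum_row W N n hW y (c y)

theorem FAC (hLOC : LOC_stmt) (hIND : IND_stmt) : FAC_stmt := by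
  intro V _ _ W N n g hW hn
  classical
  have hprb : ∀ b : V × Fin N → Option V,
      prb W N (Equiv.curry V (Fin N) (Option V) b) = ∏ i : V × Fin N, W i.1 i.2 (b i) := by
    intro b
    rw [Fintype.prod_prod_type]
    rfl
  have hsum : ∀ F : (V → Fin N → Option V) → ℝ, ∑ a, F a =
      ∑ b : V × Fin N → Option V, F (Equiv.curry V (Fin N) (Option V) b) := by
    intro F
    exact (Equiv.sum_comp (Equiv.curry V (Fin N) (Option V)) F).symm
  have hext : ∀ (b : V × Fin N → Option V) (y : V) (k : ℕ) (h : k < N),
      ext (Equiv.curry V (Fin N) (Option V) b) y k = b (y, ⟨k, h⟩) := by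
    intro b y k h
    change (if h : k < N then b (y, ⟨k, h⟩) else none) = _
    rw [dif_pos h]
  have key := hIND (V × Fin N) (Option V) (fun i c => W i.1 i.2 c) (fun i => (hW i.1 i.2).2)
    (univ.filter fun i : V × Fin N => (i.2 : ℕ) < n i.1)
    (fun b => if Reach (ext (Equiv.curry V (Fin N) (Option V) b)) 0 n then 1 else 0)
    (fun b => g (top (ext (Equiv.curry V (Fin N) (Option V) b)) n)) ?_ ?_
  · rw [← sum_top W N n hW g]
    unfold PE
    rw [hsum, hsum fun a => prb W N a * if Reach (ext a) 0 n then 1 else 0,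
      hsum fun a => prb W N a * g (top (ext a) n)]
    simp only [hprb]
    exact key
  · intro a b hab
    have h1 : ∀ y k, k < n y → ext (Equiv.curry V (Fin N) (Option V) a) y k =
        ext (Equiv.curry V (Fin N) (Option V) b) y k := by
      intro y k hk
      have hkN : k < N := lt_of_lt_of_le hk (hn y)
      rw [hext a y k hkN, hext b y k hkN]
      refine hab _ ?_
      rw [mem_filter]
      exact ⟨mem_univ _, hk⟩
    have h2 : Reach (ext (Equiv.curry V (Fin N) (Option V) a)) 0 n ↔
        Reach (ext (Equiv.curry V (Fin N) (Option V) b)) 0 n :=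
      ⟨fun h => hLOC V _ _ n h h1, fun h => hLOC V _ _ n h fun y k hk => (h1 y k hk).symm⟩
    by_cases h3 : Reach (ext (Equiv.curry V (Fin N) (Option V) a)) 0 n
    · rw [if_pos h3, if_pos (h2.1 h3)]
    · rw [if_neg h3, if_neg fun h4 => h3 (h2.2 h4)]
  · intro a b hab
    have h1 : top (ext (Equiv.curry V (Fin N) (Option V) a)) n =
        top (ext (Equiv.curry V (Fin N) (Option V) b)) n := by
      funext y
      rw [top_ext, top_ext]
      by_cases h : n y < N
      · rw [dif_pos h, dif_pos h]
        refine hab (y, ⟨n y, h⟩) ?_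
        rw [mem_filter]
        intro h2
        exact lt_irrefl _ h2.2
      · rw [dif_neg h, dif_neg h]
    change g _ = g _
    rw [h1]

end Pool.Agent.Helper79.WP
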